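import Pool.Agent.R516.Core
import Pool.Agent.R516.Hlb

/-!
# The prime tuples conjecture on average over boxes with sides down to a power of the logarithm

In all but boundedly many ranges of scales the number of prime `j`-tuples with shifts in a box is the
predicted one times the `j`-th moment of one function `θ` with values in `[0, 18 / 5]` and mean `1`,
the same for all boxes with sides in the range and all `j ≤ k`, and also with `n` in any given set.
-/

set_option autoImplicit false

namespace Pool.Agent.Results.MP_e87c7d_nt.BoxesAtMostScales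

open Finset Filter

open Classical in
/-- The number of pairs `(n, a)`, where `n ∈ S` and `a` is a vector of `j` distinct integers with
`v l < a l ≤ w l` for all `l`, for which all the `n + a l` are prime. -/
noncomputable def primeTuples (S : Finset ℕ) {j : ℕ} (v w : Fin j → ℕ) : ℕ :=
  ∑ a ∈ (Fintype.piFinset (fun l => Ioc (v l) (w l))).filter (fun a => Function.Injective a),
    (S.filter (fun n => ∀ l, (n + a l).Prime)).card

/-- `(v, w]` is an interval at the scales between `A` and `A'`. -/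
def InRange (M : ℕ) (A A' : ℝ) (v w : ℕ) : Prop :=
  (v = 0 ∨ A ≤ (v : ℝ)) ∧ A ≤ (w : ℝ) ∧ (w : ℝ) ≤ A' ∧ (w : ℝ) ≤ M * ((w : ℝ) - v)

/-- For all `k`, `M` and `η > 0` there is `K` such that for all large `N` and every chain of scales
`(log N) ^ (k + 23) ≤ T 0`, `2 T i ≤ T (i + 1)`, `T R ≤ N`, for all `i < R` outside a set of at most
`K` exceptions there is a function `θ` with values in `[0, 18 / 5]`, whose mean over the integers
`n < N` is `1` up to `η` and whose `j`-th moments are between `1 - η` and `(18 / 5) ^ (j - 1) + η`,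
such that for all `j ≤ k`, all boxes `∏ (v l, w l]` with sides `InRange` and all sets `S` of integers
`n < N` the number of prime tuples is `((1 / N) ∑ n ∈ S, θ n ^ j ± η) N ∏ (w l - v l) / log N`. -/
theorem result (k M : ℕ) (η : ℝ) (hη : 0 < η) : ∃ K : ℕ, ∀ᶠ N : ℕ in atTop,
    ∀ (R : ℕ) (T : ℕ → ℝ), Real.log N ^ (k + 23) ≤ T 0 → (∀ i < R, 2 * T i ≤ T (i + 1)) →
      T R ≤ N → ∃ B : Finset ℕ, B.card ≤ K ∧ ∀ i < R, i ∉ B → ∃ θ : ℕ → ℝ,
        (∀ n, 0 ≤ θ n ∧ θ n ≤ 18 / 5) ∧ |(∑ n ∈ range N, θ n) / N - 1| ≤ η ∧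
        (∀ j, 1 ≤ j → j ≤ k → 1 - η ≤ (∑ n ∈ range N, θ n ^ j) / N ∧
          (∑ n ∈ range N, θ n ^ j) / N ≤ (18 / 5) ^ (j - 1) + η) ∧
        ∀ j ≤ k, ∀ v w : Fin j → ℕ, (∀ l, InRange M (T i) (T (i + 1)) (v l) (w l)) →
          ∀ S : Finset ℕ, S ⊆ range N →
            |(primeTuples S v w : ℝ) / (N * ∏ l, (((w l : ℝ) - v l) / Real.log N)) -
              (∑ n ∈ S, θ n ^ j) / N| ≤ η := by
  exact Pool.Agent.R516.hlb (Pool.Agent.R516.winU Pool.Agent.R516.core) k M η hη

end Pool.Agent.Results.MP_e87c7d_nt.BoxesAtMostScales
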