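import Mathlib
import Pool.Agent.R463.EF4
import Pool.Agent.R463.EX6

set_option autoImplicit false

/-!
# Tuples of integers without small prime factors, exactly, in several windows at arbitrary distances

For the integers without prime factors `p ≤ y`, in every interval longer than a fixed power of `y`: the exact
number of occurrences of every pattern in several windows, each of length up to a constant times the average
spacing, at arbitrary distances up to a fixed power of `y`.
-/

namespace Pool.Agent.Results.MP_e87c7d_nt.ExactTuplesInWindows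

open Finset Pool.Agent.H373R2.T7 Pool.Agent.W123.RP Pool.Agent.W123.RU Pool.Agent.TH464.PO
open Pool.Agent.R463.EX

/-- `n` has no prime factor `p ≤ y` -/
def Rough (y n : ℕ) : Prop := ∀ p : ℕ, p.Prime → p ≤ y → ¬ p ∣ n

/-- The product over the primes `p ≤ y` of `1 - ν / p`, where `ν` is the number of the residue classes
modulo `p` which contain an element of `H`. -/
noncomputable def density (H : Finset ℕ) (y : ℕ) : ℝ :=
  ∏ p ∈ (Icc 1 y).filter Nat.Prime, (1 - ((H.image (· % p)).card : ℝ) / p)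

/-- The number of the integers `n` in `(z, z + Y]` for which, in all windows `(n + d, n + d + l d]`, `d ∈ D`,
the elements of `Rough y` are exactly the integers `n + h` with `h ∈ H`. -/
noncomputable def patterns (D : Finset ℕ) (l : ℕ → ℕ) (H : Finset ℕ) (y z Y : ℕ) : ℕ :=
  Set.ncard {n : ℕ | z < n ∧ n ≤ z + Y ∧
    ∀ d ∈ D, ∀ j : ℕ, d < j → j ≤ d + l d → (Rough y (n + j) ↔ j ∈ H)}

lemma rough_iff (y n : ℕ) : Sf Qi y n ↔ Rough y n := by
  constructor
  · intro h p hp hpy hd
    exact h p (mem_pz.2 ⟨hpy, hp⟩) hd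
  · intro h p hp hd
    obtain ⟨h1, h2⟩ := mem_pz.1 hp
    exact h p h2 h1 hd

lemma density_eq (H : Finset ℕ) (y : ℕ) : Vq (QH Qi H) y = density H y := by
  unfold Vq density pz
  apply Finset.prod_congr rfl
  intro p hp
  rw [nuB_QH_Qi H p (mem_filter.1 hp).2]

lemma density_zero (y : ℕ) : Vq Qi y = density {0} y := by
  unfold Vq density pz
  apply Finset.prod_congr rfl
  intro p hp
  rw [nuB_Qi p (mem_filter.1 hp).2, image_singleton, card_singleton]

lemma patterns_eq (D : Finset ℕ) (l : ℕ → ℕ) (H : Finset ℕ) (y z Y : ℕ) :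
    exJ Qi (Jw D l) H y z Y = patterns D l H y z Y := by
  classical
  unfold exJ patterns Jw
  rw [← Set.ncard_coe_finset]
  congr 1
  ext n
  simp only [coe_filter, mem_Icc, Set.mem_ofPred_eq, rough_iff, mem_biUnion, mem_Ioc]
  constructor
  · rintro ⟨⟨h1, h2⟩, h3⟩
    exact ⟨by omega, h2, fun d hd j hj1 hj2 => h3 j ⟨d, hd, hj1, hj2⟩⟩
  · rintro ⟨h1, h2, h3⟩
    exact ⟨⟨by omega, h2⟩, fun j ⟨d, hd, hj1, hj2⟩ => h3 d hd j hj1 hj2⟩

lemma card_Jw (D : Finset ℕ) (l : ℕ → ℕ) (h : (D : Set ℕ).PairwiseDisjoint (fun d => Ioc d (d + l d))) :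
    (Jw D l).card = ∑ d ∈ D, l d := by
  unfold Jw
  rw [card_biUnion (fun d hd d' hd' hne => h hd hd' hne)]
  apply Finset.sum_congr rfl
  intro d _
  rw [Nat.card_Ioc]
  omega

/-- **Exact tuples in windows.** For all `k`, `m`, `A`, `x₀` and `ε > 0` there are `s` and `y₀` such that for
all `y ≥ y₀`, all intervals `(z, z + Y]` of length `Y ≥ y ^ s`, all systems of at most `m` disjoint windows
`(d, d + l(d)]` with `d + l(d) ≤ y ^ A` and `l(d) V ≤ x₀`, `V = ∏_{p ≤ y} (1 - 1 / p)`, and all nonempty sets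
`H` of at most `k` integers from the windows, the number of the `n` in the interval for which the integers
without prime factors `p ≤ y` in the windows `(n + d, n + d + l(d)]` are exactly the `n + h`, `h ∈ H`, is
`Y ∏_{p ≤ y} (1 - ν_p(H) / p) exp (- V ∑ l(d))`, up to the factor `1 ± ε`. -/
theorem result (k m A : ℕ) (x₀ ε : ℝ) (hε : 0 < ε) :
    ∃ s y₀ : ℕ, ∀ y : ℕ, y₀ ≤ y → ∀ z Y : ℕ, y ^ s ≤ Y → ∀ (D : Finset ℕ) (l : ℕ → ℕ), D.card ≤ m →
      (∀ d ∈ D, ∀ d' ∈ D, d < d' → d + l d ≤ d') → (∀ d ∈ D, d + l d ≤ y ^ A) →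
      (∀ d ∈ D, l d * density {0} y ≤ x₀) →
      ∀ H : Finset ℕ, H.Nonempty → H.card ≤ k → (∀ h ∈ H, ∃ d ∈ D, d < h ∧ h ≤ d + l d) →
        |(patterns D l H y z Y : ℝ) -
            Y * density H y * Real.exp (-((∑ d ∈ D, l d : ℕ) * density {0} y))| ≤
          ε * (Y * density H y * Real.exp (-((∑ d ∈ D, l d : ℕ) * density {0} y))) := by
  choose s y0 h using fun a : ℕ => pattF (a + 1) (m + 1) (by omega) (by omega) x₀ ε A hε
  refine ⟨∑ a ∈ range k, s a, (∑ a ∈ range k, y0 a) + 1, ?_⟩
  intro y hy z Y hY D l hD hdis hDA hx H hH0 hHk hHD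
  have hpos : 0 < H.card := card_pos.2 hH0
  obtain ⟨a, ha⟩ : ∃ a, a = H.card - 1 := ⟨_, rfl⟩
  have hak : a ∈ range k := mem_range.2 (by omega)
  have hs : s a ≤ ∑ a ∈ range k, s a := Finset.single_le_sum (fun _ _ => Nat.zero_le _) hak
  have hy0 : y0 a ≤ ∑ a ∈ range k, y0 a := Finset.single_le_sum (fun _ _ => Nat.zero_le _) hak
  have hdis' : (D : Set ℕ).PairwiseDisjoint (fun d => Ioc d (d + l d)) := by
    intro d hd d' hd' hne
    rw [Function.onFun, Finset.disjoint_left]
    intro j hj hj'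
    rw [mem_Ioc] at hj hj'
    rcases Nat.lt_or_gt_of_ne hne with h1 | h1
    · have := hdis d hd d' hd' h1
      omega
    · have := hdis d' hd' d hd h1
      omega
  have h1 := h a y (by omega) z Y ((Nat.pow_le_pow_right (by omega) hs).trans hY) D l (by omega) hdis' hDA
    (fun d hd => by rw [density_zero]; exact hx d hd) H (by
      intro j hj
      obtain ⟨d, hd, h2⟩ := hHD j hj
      unfold Jw
      rw [mem_biUnion]
      exact ⟨d, hd, mem_Ioc.2 h2⟩) (by omega)
  rw [patterns_eq, density_eq, density_zero, card_Jw D l hdis'] at h1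
  exact h1

end Pool.Agent.Results.MP_e87c7d_nt.ExactTuplesInWindows
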