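import Mathlib
import Pool.Agent.R463.EJ2

set_option autoImplicit false

/-!
# Every admissible tuple in a window up to Rankin's function, as a block of consecutive almost primes

Let `R(Y) = log Y log₂ Y log₄ Y / (log₃ Y)²`. For every `k` there is `s` such that for every `ε > 0` there is
`c > 0` such that for all large `Y`, all `w` with `log Y ≤ w ≤ Y ^ (1 / s)`, all `N ≤ c R(Y)` and all nonempty
sets `H ⊆ [0, N]` of at most `k` integers which miss a class modulo every prime, every interval `(z, z + Y]`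
contains at least `Y ^ (1 - ε)` integers `n` such that the integers without prime factors `p ≤ w` in
`[n, n + N]` are exactly the `n + h`, `h ∈ H`.
-/

namespace Pool.Agent.Results.MP_e87c7d_nt.PatternsUpToRankin

open Pool.Agent.R463.EI

/-- `n` has no prime factor `p ≤ w` -/
def Rough (w n : ℕ) : Prop := ∀ p : ℕ, p.Prime → p ≤ w → ¬ p ∣ n

/-- The number of the `n` in `(z, z + Y]` for which the elements of `Rough w` in `[n, n + N]` are exactly the
`n + h`, `h ∈ H`. -/
noncomputable def blocks (w z Y N : ℕ) (H : Finset ℕ) : ℕ :=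
  Set.ncard {n : ℕ | z < n ∧ n ≤ z + Y ∧ ∀ j ≤ N, Rough w (n + j) ↔ j ∈ H}

/-- Rankin's function -/
noncomputable def rankin (Y : ℝ) : ℝ :=
  Real.log Y * Real.log (Real.log Y) * Real.log (Real.log (Real.log (Real.log Y))) /
    Real.log (Real.log (Real.log Y)) ^ 2

lemma blocks_eq (w z Y N : ℕ) (H : Finset ℕ) : blockc w z Y N H = blocks w z Y N H := by
  classical
  unfold blockc blocks
  rw [← Set.ncard_coe_finset]
  congr 1
  ext n
  simp only [Finset.coe_filter, Finset.mem_Ioc, Set.mem_ofPred_eq, and_assoc]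
  rfl

lemma adm_of (H : Finset ℕ) (h : ∀ p : ℕ, p.Prime → ∃ r : ℕ, ∀ h ∈ H, ¬ h ≡ r [MOD p]) : Adm H := by
  intro p hp
  obtain ⟨r, hr⟩ := h p hp
  have h1 : H.image (· % p) ⊆ (Finset.range p).erase (r % p) := by
    intro x hx
    rw [Finset.mem_image] at hx
    obtain ⟨h, hh, rfl⟩ := hx
    rw [Finset.mem_erase, Finset.mem_range]
    exact ⟨fun e => hr h hh e, Nat.mod_lt _ hp.pos⟩
  have h2 := Finset.card_le_card h1
  rw [Finset.card_erase_of_mem (Finset.mem_range.2 (Nat.mod_lt _ hp.pos)), Finset.card_range] at h2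
  have := hp.pos
  omega

/-- **Every admissible tuple in a window up to Rankin's function.** For every `k` there is `s` such that for
every `ε > 0` there is `c > 0` such that for all large `Y`, all `w` with `log Y ≤ w`, `w ^ s ≤ Y`, all `z`, all
`N ≤ c log Y log₂ Y log₄ Y / (log₃ Y)²` and all nonempty sets `H ⊆ [0, N]` of at most `k` integers which miss a
class modulo every prime, at least `Y ^ (1 - ε)` integers `n ∈ (z, z + Y]` are such that the integers without
prime factors `p ≤ w` in `[n, n + N]` are exactly the `n + h`, `h ∈ H`. -/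
theorem result (k : ℕ) : ∃ s : ℕ, 1 ≤ s ∧ ∀ ε : ℝ, 0 < ε → ∃ c : ℝ, 0 < c ∧ ∃ Y₀ : ℕ, ∀ Y : ℕ, Y₀ ≤ Y →
    ∀ w : ℕ, Real.log Y ≤ w → w ^ s ≤ Y → ∀ z N : ℕ, (N : ℝ) ≤ c * rankin Y →
      ∀ H : Finset ℕ, H.Nonempty → H.card ≤ k →
        (∀ p : ℕ, p.Prime → ∃ r : ℕ, ∀ h ∈ H, ¬ h ≡ r [MOD p]) → (∀ h ∈ H, h ≤ N) →
        (Y : ℝ) ^ (1 - ε) ≤ blocks w z Y N H := by
  choose s hs h0 using fun a : ℕ => every_block (a + 1) (by omega)
  refine ⟨(∑ a ∈ Finset.range k, s a) + 1, by omega, fun ε hε => ?_⟩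
  choose c hc Y0 h1 using fun a : ℕ => h0 a ε hε
  have hmin : ∃ c1 : ℝ, 0 < c1 ∧ ∀ a < k, c1 ≤ c a := by
    clear h1
    induction k with
    | zero => exact ⟨1, one_pos, fun a ha => absurd ha (Nat.not_lt_zero a)⟩
    | succ k ih =>
      obtain ⟨c1, hc1, hc2⟩ := ih
      refine ⟨min c1 (c k), lt_min hc1 (hc k), fun a ha => ?_⟩
      rcases Nat.lt_succ_iff_lt_or_eq.1 ha with h | h
      · exact (min_le_left _ _).trans (hc2 a h)
      · rw [h]
        exact min_le_right _ _
  obtain ⟨c1, hc1, hc2⟩ := hmin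
  refine ⟨c1, hc1, (∑ a ∈ Finset.range k, Y0 a) + 16, fun Y hY w hw hwY z N hN H hH0 hHk hadm hHN => ?_⟩
  have hpos : 0 < H.card := Finset.card_pos.2 hH0
  obtain ⟨a, ha⟩ : ∃ a, a = H.card - 1 := ⟨_, rfl⟩
  have hak : a < k := by omega
  have hak' : a ∈ Finset.range k := Finset.mem_range.2 hak
  have hsa : s a ≤ ∑ a ∈ Finset.range k, s a := Finset.single_le_sum (fun _ _ => Nat.zero_le _) hak'
  have hYa : Y0 a ≤ ∑ a ∈ Finset.range k, Y0 a := Finset.single_le_sum (fun _ _ => Nat.zero_le _) hak'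
  have hw1 : 1 ≤ w := by
    have h2 : (16 : ℝ) ≤ Y := by
      have : 16 ≤ Y := by omega
      exact_mod_cast this
    have h3 : 0 < Real.log (Y : ℝ) := Real.log_pos (by linarith)
    have h4 : (0 : ℝ) < w := by linarith
    exact_mod_cast h4
  have hws : w ^ s a ≤ Y := (Nat.pow_le_pow_right hw1 (by omega)).trans hwY
  rw [← blocks_eq]
  refine h1 a Y (by omega) w hw hws z N ?_ H (by omega) (adm_of H hadm) hHN
  rcases le_or_gt 0 (Ran Y) with h2 | h2
  · exact hN.trans (mul_le_mul_of_nonneg_right (hc2 a hak) h2)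
  · exfalso
    have h3 : c1 * rankin Y < 0 := mul_neg_of_pos_of_neg hc1 h2
    have h4 : (0 : ℝ) ≤ N := Nat.cast_nonneg N
    linarith

end Pool.Agent.Results.MP_e87c7d_nt.PatternsUpToRankin
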