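import Mathlib
import Pool.Agent.R494.IQ5

set_option autoImplicit false

/-!
# Infinite partial sumsets in the primes with a prescribed graph of quadratic residues

Let `G` be any graph on the natural numbers, `r` coprime to `m` and `f` any colouring of the natural numbers
with finitely many colours. There are a colour `s` and infinite increasing sequences `a`, `b` of natural
numbers such that all sums `a i + b k` with `i ≤ k` are primes, congruent to `r` modulo `m` and of colour `s`,
and such that for `i < j ≤ k` the prime `a j + b k` is a quadratic residue modulo the prime `a i + b k` exactly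
when `i` and `j` are adjacent in `G`.
-/

namespace Pool.Agent.Results.MP_e87c7d_nt.SumsetsResidueGraph

theorem result (G : SimpleGraph ℕ) (m r c : ℕ) (hm : 0 < m) (hr : r.Coprime m) (hc : 0 < c)
    (f : ℕ → Fin c) : ∃ (s : Fin c) (a b : ℕ → ℕ), StrictMono a ∧ StrictMono b ∧
      ∀ k : ℕ, (∀ i ≤ k, (a i + b k).Prime ∧ a i + b k ≡ r [MOD m] ∧ f (a i + b k) = s) ∧
        ∀ i j, i < j → j ≤ k → (G.Adj i j ↔ IsSquare ((a j + b k : ℕ) : ZMod (a i + b k))) :=
  Pool.Agent.R494.IQ.sumsets G m r c hm hr hc f

end Pool.Agent.Results.MP_e87c7d_nt.SumsetsResidueGraph
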